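import Mathlib

set_option autoImplicit false

/-! The Banach algebra of absolutely summable double power series. -/

namespace Pool.Agent.MP_8db26a_an.Skew54

open Filter Topology
open scoped ENNReal

/-- absolutely summable double sequences -/
def A : Type := lp (fun _ : ℕ × ℕ => ℂ) 1

noncomputable instance : NormedAddCommGroup A :=
  inferInstanceAs (NormedAddCommGroup (lp (fun _ : ℕ × ℕ => ℂ) 1))

noncomputable instance : NormedSpace ℂ A :=
  inferInstanceAs (NormedSpace ℂ (lp (fun _ : ℕ × ℕ => ℂ) 1))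

instance : CompleteSpace A :=
  inferInstanceAs (CompleteSpace (lp (fun _ : ℕ × ℕ => ℂ) 1))

/-- coefficient -/
noncomputable def co (x : A) (i : ℕ × ℕ) : ℂ := (show lp (fun _ : ℕ × ℕ => ℂ) 1 from x) i

/-- basis vector -/
noncomputable def ee (i : ℕ × ℕ) : A := (lp.single 1 i (1 : ℂ) : lp (fun _ : ℕ × ℕ => ℂ) 1)

theorem norm_ee (i : ℕ × ℕ) : ‖ee i‖ = 1 := by
  have := lp.norm_single (E := fun _ : ℕ × ℕ => ℂ) (p := 1) zero_lt_one i (1 : ℂ)
  rw [norm_one] at this
  exact this

theorem co_add (x y : A) (i : ℕ × ℕ) : co (x + y) i = co x i + co y i := rfl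

theorem co_smul (c : ℂ) (x : A) (i : ℕ × ℕ) : co (c • x) i = c * co x i := rfl

theorem co_ee (i j : ℕ × ℕ) : co (ee i) j = if j = i then 1 else 0 := by
  change (lp.single 1 i (1 : ℂ) : lp (fun _ : ℕ × ℕ => ℂ) 1) j = _
  rw [lp.single_apply, Pi.single_apply]

theorem hasSum_co (x : A) : HasSum (fun i => co x i • ee i) x := by
  have h := lp.hasSum_single (E := fun _ : ℕ × ℕ => ℂ) (p := 1) (by simp)
    (show lp (fun _ : ℕ × ℕ => ℂ) 1 from x)
  have h2 : (fun i => co x i • ee i) = fun i =>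
      (lp.single 1 i ((show lp (fun _ : ℕ × ℕ => ℂ) 1 from x) i) : lp (fun _ : ℕ × ℕ => ℂ) 1) := by
    funext i
    have := lp.single_smul (𝕜 := ℂ) (E := fun _ : ℕ × ℕ => ℂ) 1 i (co x i) (1 : ℂ)
    rw [smul_eq_mul, mul_one] at this
    exact this.symm
  rw [h2]
  exact h

theorem norm_eq (x : A) : HasSum (fun i => ‖co x i‖) ‖x‖ := by
  have h := lp.hasSum_norm (E := fun _ : ℕ × ℕ => ℂ) (p := 1) (by simp)
    (show lp (fun _ : ℕ × ℕ => ℂ) 1 from x)
  simp only [ENNReal.toReal_one, Real.rpow_one] at h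
  exact h

section lift

variable {Y : Type} [NormedAddCommGroup Y] [NormedSpace ℂ Y] [CompleteSpace Y]

omit [CompleteSpace Y] in
theorem summable_lift (y : ℕ × ℕ → Y) (hy : ∀ i, ‖y i‖ ≤ 1) (x : A) :
    Summable (fun i => ‖co x i • y i‖) := by
  apply (norm_eq x).summable.of_nonneg_of_le (fun i => norm_nonneg _)
  intro i
  rw [norm_smul]
  exact mul_le_of_le_one_right (norm_nonneg _) (hy i)

/-- the operator sending the basis to a given bounded family -/
noncomputable def lift1 (y : ℕ × ℕ → Y) (hy : ∀ i, ‖y i‖ ≤ 1) : A →L[ℂ] Y :=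
  LinearMap.mkContinuous
    { toFun := fun x => ∑' i, co x i • y i
      map_add' := fun a b => by
        simp only [co_add, add_smul]
        exact ((summable_lift y hy a).of_norm).tsum_add ((summable_lift y hy b).of_norm)
      map_smul' := fun c a => by
        simp only [co_smul, mul_smul, RingHom.id_apply]
        exact ((summable_lift y hy a).of_norm).tsum_const_smul c }
    1 (by
      intro x
      rw [one_mul]
      refine (norm_tsum_le_tsum_norm (summable_lift y hy x)).trans ?_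
      rw [← (norm_eq x).tsum_eq]
      apply (summable_lift y hy x).tsum_le_tsum _ (norm_eq x).summable
      intro i
      rw [norm_smul]
      exact mul_le_of_le_one_right (norm_nonneg _) (hy i))

open Classical in
/-- total version of the operator -/
noncomputable def lift (y : ℕ × ℕ → Y) : A →L[ℂ] Y :=
  if hy : ∀ i, ‖y i‖ ≤ 1 then lift1 y hy else 0

theorem lift_apply (y : ℕ × ℕ → Y) (hy : ∀ i, ‖y i‖ ≤ 1) (x : A) :
    lift y x = ∑' i, co x i • y i := by
  unfold lift
  rw [dif_pos hy]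
  rfl

theorem lift_ee (y : ℕ × ℕ → Y) (hy : ∀ i, ‖y i‖ ≤ 1) (i : ℕ × ℕ) : lift y (ee i) = y i := by
  rw [lift_apply y hy, tsum_eq_single i]
  · rw [co_ee, if_pos rfl, one_smul]
  · intro j hj
    rw [co_ee, if_neg hj, zero_smul]

theorem norm_lift (y : ℕ × ℕ → Y) : ‖lift y‖ ≤ 1 := by
  unfold lift
  split_ifs with hy
  · exact LinearMap.mkContinuous_norm_le _ zero_le_one _
  · simp

theorem norm_lift_le (y : ℕ × ℕ → Y) (x : A) : ‖lift y x‖ ≤ ‖x‖ := by
  refine ((lift y).le_opNorm x).trans ?_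
  exact mul_le_of_le_one_left (norm_nonneg _) (norm_lift y)

omit [CompleteSpace Y] in
theorem ext_ee {f g : A →L[ℂ] Y} (h : ∀ i, f (ee i) = g (ee i)) : f = g := by
  ext x
  have h1 := (hasSum_co x).mapL f
  have h2 := (hasSum_co x).mapL g
  have h3 : (fun i => f (co x i • ee i)) = fun i => g (co x i • ee i) := by
    funext i
    rw [map_smul, map_smul, h i]
  rw [h3] at h1
  exact h1.unique h2

end lift

/-- multiplication as a continuous bilinear map -/
noncomputable def mulL : A →L[ℂ] A →L[ℂ] A := lift fun i => lift fun j => ee (i + j)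

theorem mulL_ee (i j : ℕ × ℕ) : mulL (ee i) (ee j) = ee (i + j) := by
  unfold mulL
  rw [lift_ee _ (fun i => norm_lift _), lift_ee _ (fun j => (norm_ee _).le)]

theorem mulL_assoc (x y z : A) : mulL (mulL x y) z = mulL x (mulL y z) := by
  have h1 : ∀ i j, mulL (mulL (ee i) (ee j)) = (mulL (ee i)).comp (mulL (ee j)) := by
    intro i j
    apply ext_ee
    intro k
    rw [ContinuousLinearMap.comp_apply, mulL_ee, mulL_ee, mulL_ee, mulL_ee, add_assoc]
  have h2 : ∀ i z, (mulL.flip z).comp (mulL (ee i)) = (mulL (ee i)).comp (mulL.flip z) := by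
    intro i z
    apply ext_ee
    intro j
    rw [ContinuousLinearMap.comp_apply, ContinuousLinearMap.comp_apply,
      ContinuousLinearMap.flip_apply, ContinuousLinearMap.flip_apply, h1]
    rfl
  have h3 : ∀ y z, (mulL.flip z).comp (mulL.flip y) = mulL.flip (mulL y z) := by
    intro y z
    apply ext_ee
    intro i
    have := congrArg (fun f => f y) (h2 i z)
    simpa using this
  have := congrArg (fun f => f x) (h3 y z)
  simpa using this

theorem mulL_comm (x y : A) : mulL x y = mulL y x := by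
  have h1 : ∀ i, mulL (ee i) = mulL.flip (ee i) := by
    intro i
    apply ext_ee
    intro j
    rw [ContinuousLinearMap.flip_apply, mulL_ee, mulL_ee, add_comm]
  have h2 : ∀ y, mulL.flip y = mulL y := by
    intro y
    apply ext_ee
    intro i
    rw [ContinuousLinearMap.flip_apply, h1]
    rfl
  rw [← h2 y]
  rfl

theorem mulL_one (x : A) : mulL (ee 0) x = x := by
  have h1 : mulL (ee 0) = ContinuousLinearMap.id ℂ A := by
    apply ext_ee
    intro i
    rw [mulL_ee, zero_add]
    rfl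
  rw [h1]
  rfl

theorem norm_mulL (x y : A) : ‖mulL x y‖ ≤ ‖x‖ * ‖y‖ := by
  refine ((mulL x).le_opNorm y).trans ?_
  apply mul_le_mul_of_nonneg_right _ (norm_nonneg _)
  exact norm_lift_le _ x

noncomputable instance : NormedCommRing A :=
  { (inferInstance : NormedAddCommGroup A) with
    mul := fun x y => mulL x y
    one := ee 0
    left_distrib := fun x y z => (mulL x).map_add y z
    right_distrib := fun x y z => by
      change mulL (x + y) z = mulL x z + mulL y z
      rw [map_add]; rfl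
    zero_mul := fun x => by
      change mulL 0 x = 0
      rw [map_zero]; rfl
    mul_zero := fun x => (mulL x).map_zero
    mul_assoc := mulL_assoc
    one_mul := mulL_one
    mul_one := fun x => by
      change mulL x (ee 0) = x
      rw [mulL_comm]; exact mulL_one x
    mul_comm := mulL_comm
    norm_mul_le := norm_mulL }

theorem mul_def (x y : A) : x * y = mulL x y := rfl

theorem one_def : (1 : A) = ee 0 := rfl

noncomputable instance : Algebra ℂ A :=
  Algebra.ofModule
    (fun c x y => by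
      change mulL (c • x) y = c • mulL x y
      rw [map_smul]; rfl)
    (fun c x y => (mulL x).map_smul c y)

noncomputable instance : NormedAlgebra ℂ A :=
  { norm_smul_le := fun c x => (norm_smul c x).le }

instance : NormOneClass A := ⟨norm_ee 0⟩

/-- the two variables -/
noncomputable def Z : A := ee (1, 0)
noncomputable def W : A := ee (0, 1)

theorem ee_mul (i j : ℕ × ℕ) : ee i * ee j = ee (i + j) := mulL_ee i j

theorem Z_pow (m : ℕ) : Z ^ m = ee (m, 0) := by
  induction m with
  | zero => rw [pow_zero]; rfl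
  | succ m ih => rw [pow_succ, ih, Z, ee_mul]; rfl

theorem W_pow (m : ℕ) : W ^ m = ee (0, m) := by
  induction m with
  | zero => rw [pow_zero]; rfl
  | succ m ih => rw [pow_succ, ih, W, ee_mul]; rfl

theorem ee_eq (i : ℕ × ℕ) : ee i = Z ^ i.1 * W ^ i.2 := by
  rw [Z_pow, W_pow, ee_mul]
  congr 1
  ext <;> simp

/-- evaluation at a point of the closed bidisc -/
noncomputable def ev (z w : ℂ) : A →L[ℂ] ℂ := lift fun i => z ^ i.1 * w ^ i.2

theorem ev_bound {z w : ℂ} (hz : ‖z‖ ≤ 1) (hw : ‖w‖ ≤ 1) (i : ℕ × ℕ) :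
    ‖z ^ i.1 * w ^ i.2‖ ≤ 1 := by
  rw [norm_mul, norm_pow, norm_pow]
  exact mul_le_one₀ (pow_le_one₀ (norm_nonneg _) hz) (by positivity)
    (pow_le_one₀ (norm_nonneg _) hw)

theorem ev_ee {z w : ℂ} (hz : ‖z‖ ≤ 1) (hw : ‖w‖ ≤ 1) (i : ℕ × ℕ) :
    ev z w (ee i) = z ^ i.1 * w ^ i.2 := lift_ee _ (ev_bound hz hw) i

theorem ev_mul {z w : ℂ} (hz : ‖z‖ ≤ 1) (hw : ‖w‖ ≤ 1) (x y : A) :
    ev z w (x * y) = ev z w x * ev z w y := by
  have h1 : ∀ i, (ev z w).comp (mulL (ee i)) = (ev z w (ee i)) • ev z w := by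
    intro i
    apply ext_ee
    intro j
    rw [ContinuousLinearMap.comp_apply, mulL_ee, smul_apply,
      ev_ee hz hw, ev_ee hz hw, ev_ee hz hw, smul_eq_mul, Prod.fst_add, Prod.snd_add]
    ring
  have h2 : ∀ y, (ev z w).comp (mulL.flip y) = (ev z w y) • ev z w := by
    intro y
    apply ext_ee
    intro i
    have := congrArg (fun f => f y) (h1 i)
    simp only [ContinuousLinearMap.comp_apply, smul_apply, smul_eq_mul] at this
    rw [ContinuousLinearMap.comp_apply, ContinuousLinearMap.flip_apply, this,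
      smul_apply, smul_eq_mul, mul_comm]
  have := congrArg (fun f => f x) (h2 y)
  simp only [ContinuousLinearMap.comp_apply, smul_apply, smul_eq_mul,
    ContinuousLinearMap.flip_apply] at this
  rw [mul_def, this, mul_comm]

theorem ev_one {z w : ℂ} (hz : ‖z‖ ≤ 1) (hw : ‖w‖ ≤ 1) : ev z w 1 = 1 := by
  rw [one_def, ev_ee hz hw]
  simp

/-- evaluation as a ring homomorphism -/
noncomputable def evR {z w : ℂ} (hz : ‖z‖ ≤ 1) (hw : ‖w‖ ≤ 1) : A →+* ℂ where
  toFun := ev z w
  map_one' := ev_one hz hw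
  map_mul' := ev_mul hz hw
  map_zero' := map_zero _
  map_add' := map_add _

theorem ev_pow {z w : ℂ} (hz : ‖z‖ ≤ 1) (hw : ‖w‖ ≤ 1) (x : A) (n : ℕ) :
    ev z w (x ^ n) = ev z w x ^ n := map_pow (evR hz hw) x n

theorem ev_Z {z w : ℂ} (hz : ‖z‖ ≤ 1) (hw : ‖w‖ ≤ 1) : ev z w Z = z := by
  rw [Z, ev_ee hz hw]; simp

theorem ev_W {z w : ℂ} (hz : ‖z‖ ≤ 1) (hw : ‖w‖ ≤ 1) : ev z w W = w := by
  rw [W, ev_ee hz hw]; simp

theorem norm_ev (z w : ℂ) (x : A) : ‖ev z w x‖ ≤ ‖x‖ := norm_lift_le _ x

/-- composition with a pair of elements of the unit ball -/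
noncomputable def cmp (a b : A) : A →L[ℂ] A := lift fun i => a ^ i.1 * b ^ i.2

theorem cmp_bound {a b : A} (ha : ‖a‖ ≤ 1) (hb : ‖b‖ ≤ 1) (i : ℕ × ℕ) :
    ‖a ^ i.1 * b ^ i.2‖ ≤ 1 := by
  refine (norm_mul_le _ _).trans ?_
  exact mul_le_one₀ ((norm_pow_le _ _).trans (pow_le_one₀ (norm_nonneg _) ha)) (norm_nonneg _)
    ((norm_pow_le _ _).trans (pow_le_one₀ (norm_nonneg _) hb))

theorem ev_cmp {z w : ℂ} (hz : ‖z‖ ≤ 1) (hw : ‖w‖ ≤ 1) {a b : A} (ha : ‖a‖ ≤ 1) (hb : ‖b‖ ≤ 1)
    (x : A) : ev z w (cmp a b x) = ev (ev z w a) (ev z w b) x := by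
  have h : (ev z w).comp (cmp a b) = ev (ev z w a) (ev z w b) := by
    apply ext_ee
    intro i
    rw [ContinuousLinearMap.comp_apply, cmp, lift_ee _ (cmp_bound ha hb), ev_mul hz hw,
      ev_pow hz hw, ev_pow hz hw, ev_ee ((norm_ev _ _ _).trans ha) ((norm_ev _ _ _).trans hb)]
  exact congrArg (fun f => f x) h

/-- division by the power s of the second variable -/
noncomputable def Dv (s : ℕ) : A →L[ℂ] A :=
  lift fun i => if s ≤ i.2 then ee (i.1, i.2 - s) else 0

/-- coefficient of the power j of the second variable -/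
noncomputable def Kc (j : ℕ) : A →L[ℂ] A := lift fun i => if i.2 = j then ee (i.1, 0) else 0

theorem Dv_bound (s : ℕ) (i : ℕ × ℕ) : ‖(if s ≤ i.2 then ee (i.1, i.2 - s) else 0 : A)‖ ≤ 1 := by
  split_ifs
  · exact (norm_ee _).le
  · simp

theorem Kc_bound (j : ℕ) (i : ℕ × ℕ) : ‖(if i.2 = j then ee (i.1, 0) else 0 : A)‖ ≤ 1 := by
  split_ifs
  · exact (norm_ee _).le
  · simp

theorem division (s : ℕ) (x : A) :
    W ^ s * Dv s x + ∑ j ∈ Finset.range s, W ^ j * Kc j x = x := by
  have h : (mulL (W ^ s)).comp (Dv s) + ∑ j ∈ Finset.range s, (mulL (W ^ j)).comp (Kc j) =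
      ContinuousLinearMap.id ℂ A := by
    apply ext_ee
    intro i
    rw [add_apply, sum_apply]
    simp only [ContinuousLinearMap.comp_apply, ContinuousLinearMap.id_apply]
    rw [Dv, lift_ee _ (Dv_bound s)]
    simp only [Kc, lift_ee _ (Kc_bound _)]
    by_cases hs : s ≤ i.2
    · rw [if_pos hs, W_pow, mulL_ee, Finset.sum_eq_zero, add_zero]
      · congr 1
        ext
        · simp
        · simp only [Prod.snd_add]; omega
      · intro j hj
        rw [Finset.mem_range] at hj
        rw [if_neg (by omega), map_zero]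
    · rw [if_neg hs, map_zero, zero_add, Finset.sum_eq_single i.2]
      · rw [if_pos rfl, W_pow, mulL_ee]
        congr 1
        ext <;> simp
      · intro j _ hj
        rw [if_neg (Ne.symm hj), map_zero]
      · intro hj
        rw [Finset.mem_range] at hj
        omega
  have h2 := congrArg (fun f => f x) h
  simp only [add_apply, sum_apply,
    ContinuousLinearMap.comp_apply, ContinuousLinearMap.id_apply] at h2
  exact h2

theorem ev_Kc {z w : ℂ} (hz : ‖z‖ ≤ 1) (hw : ‖w‖ ≤ 1) (j : ℕ) (x : A) :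
    ev z w (Kc j x) = ev z 0 (Kc j x) := by
  have h : (ev z w).comp (Kc j) = (ev z 0).comp (Kc j) := by
    apply ext_ee
    intro i
    rw [ContinuousLinearMap.comp_apply, ContinuousLinearMap.comp_apply, Kc, lift_ee _ (Kc_bound _)]
    split_ifs
    · rw [ev_ee hz hw, ev_ee hz (by simp)]
      simp
    · simp
  exact congrArg (fun f => f x) h

end Pool.Agent.MP_8db26a_an.Skew54
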