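import Pool.Agent.MP_8db26a_an.L1Alg54

set_option autoImplicit false

/-! Analytic functions and the functional equation in the algebra of double series. -/

namespace Pool.Agent.MP_8db26a_an.Skew54

open Filter Topology Finset
open scoped ENNReal NNReal

/-- the monomial as a multilinear map -/
noncomputable def mono (k m : ℕ) : ContinuousMultilinearMap ℂ (fun _ : Fin k => ℂ × ℂ) ℂ :=
  (ContinuousMultilinearMap.mkPiAlgebra ℂ (Fin k) ℂ).compContinuousLinearMap
    (fun i => if (i:ℕ) < m then ContinuousLinearMap.fst ℂ ℂ ℂ else ContinuousLinearMap.snd ℂ ℂ ℂ)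

theorem mono_apply (k m : ℕ) (v : Fin k → ℂ × ℂ) :
    mono k m v = ∏ i : Fin k, (if (i:ℕ) < m then (v i).1 else (v i).2) := by
  unfold mono
  rw [ContinuousMultilinearMap.compContinuousLinearMap_apply, ContinuousMultilinearMap.mkPiAlgebra_apply]
  apply prod_congr rfl
  intro i _
  split_ifs <;> rfl

theorem norm_mono (k m : ℕ) : ‖mono k m‖ ≤ 1 := by
  apply ContinuousMultilinearMap.opNorm_le_bound zero_le_one
  intro v
  rw [mono_apply, norm_prod, one_mul]
  apply Finset.prod_le_prod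
  · intro i _; exact norm_nonneg _
  · intro i _
    split_ifs
    · exact norm_fst_le _
    · exact norm_snd_le _

theorem mono_diag (m n : ℕ) (z w : ℂ) : mono (m + n) m (fun _ => (z, w)) = z ^ m * w ^ n := by
  rw [mono_apply, Fin.prod_univ_add]
  congr 1
  · simp
  · simp

/-- power series of an element -/
noncomputable def ser (x : A) : FormalMultilinearSeries ℂ (ℂ × ℂ) ℂ :=
  fun k => ∑ i ∈ antidiagonal k, co x i • mono k i.1

theorem norm_ser (x : A) (k : ℕ) : ‖ser x k‖ ≤ ‖x‖ := by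
  unfold ser
  calc ‖∑ i ∈ antidiagonal k, co x i • mono k i.1‖ ≤ ∑ i ∈ antidiagonal k, ‖co x i‖ := by
        apply norm_sum_le_of_le
        intro i _
        rw [norm_smul]
        exact mul_le_of_le_one_right (norm_nonneg _) (norm_mono _ _)
    _ ≤ ‖x‖ := by
        rw [← (norm_eq x).tsum_eq]
        exact (norm_eq x).summable.sum_le_tsum _ (fun i _ => norm_nonneg _)

theorem ev_hasSum {z w : ℂ} (hz : ‖z‖ ≤ 1) (hw : ‖w‖ ≤ 1) (x : A) :
    HasSum (fun i : ℕ × ℕ => co x i * (z ^ i.1 * w ^ i.2)) (ev z w x) := by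
  have h := (hasSum_co x).mapL (ev z w)
  have h2 : (fun i : ℕ × ℕ => (ev z w) (co x i • ee i)) = fun i => co x i * (z ^ i.1 * w ^ i.2) := by
    funext i
    rw [map_smul, ev_ee hz hw, smul_eq_mul]
  rw [h2] at h
  exact h

theorem ser_diag (x : A) (k : ℕ) (z w : ℂ) :
    ser x k (fun _ => (z, w)) = ∑ i ∈ antidiagonal k, co x i * (z ^ i.1 * w ^ i.2) := by
  unfold ser
  rw [_root_.sum_apply]
  apply sum_congr rfl
  intro i hi
  rw [HasAntidiagonal.mem_antidiagonal] at hi
  subst hi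
  rw [smul_apply, mono_diag, smul_eq_mul]

theorem ser_hasSum {z w : ℂ} (hz : ‖z‖ ≤ 1) (hw : ‖w‖ ≤ 1) (x : A) :
    HasSum (fun k => ser x k (fun _ => (z, w))) (ev z w x) := by
  simp_rw [ser_diag]
  have h1 : HasSum ((fun i : ℕ × ℕ => co x i * (z ^ i.1 * w ^ i.2)) ∘
      Finset.HasAntidiagonal.sigmaAntidiagonalEquivProd) (ev z w x) :=
    (Equiv.hasSum_iff _).2 (ev_hasSum hz hw x)
  apply h1.sigma
  intro k
  have h2 := hasSum_fintype (fun c : antidiagonal k =>
    co x (c : ℕ × ℕ) * (z ^ (c : ℕ × ℕ).1 * w ^ (c : ℕ × ℕ).2))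
  rw [Finset.sum_coe_sort (antidiagonal k) (fun i => co x i * (z ^ i.1 * w ^ i.2))] at h2
  exact h2

theorem ev_analytic (x : A) : AnalyticAt ℂ (fun p : ℂ × ℂ => ev p.1 p.2 x) 0 := by
  refine ⟨ser x, 1, ?_, zero_lt_one, ?_⟩
  · have := (ser x).le_radius_of_bound (r := 1) ‖x‖ (fun n => by
      simpa using norm_ser x n)
    simpa using this
  · intro y hy
    have hy1 : ‖y‖ < 1 := by
      rw [← ENNReal.coe_one, Metric.eball_coe, NNReal.coe_one, mem_ball_zero_iff] at hy
      exact hy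
    rw [zero_add]
    exact ser_hasSum ((norm_fst_le y).trans hy1.le) ((norm_snd_le y).trans hy1.le) x

/-- homogeneous parts of an analytic function, rescaled -/
noncomputable def Ht (p : FormalMultilinearSeries ℂ (ℂ × ℂ) ℂ) (a b : ℝ) (k : ℕ) : A :=
  ∑ s : Finset (Fin k), p k (s.piecewise (fun _ => ((1:ℂ), (0:ℂ))) (fun _ => ((0:ℂ), (1:ℂ)))) •
    ∏ i : Fin k, (if i ∈ s then (a:ℂ) • Z else (b:ℂ) • W)

theorem norm_Z : ‖Z‖ = 1 := norm_ee _
theorem norm_W : ‖W‖ = 1 := norm_ee _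

theorem norm_Ht (p : FormalMultilinearSeries ℂ (ℂ × ℂ) ℂ) {a b : ℝ} (ha : 0 ≤ a) (hab : a ≤ b)
    (k : ℕ) : ‖Ht p a b k‖ ≤ ‖p k‖ * (2 * b) ^ k := by
  have hb : 0 ≤ b := ha.trans hab
  unfold Ht
  calc _ ≤ ∑ s : Finset (Fin k), ‖p k‖ * b ^ k := by
        apply norm_sum_le_of_le
        intro s _
        rw [norm_smul]
        apply mul_le_mul _ _ (norm_nonneg _) (norm_nonneg _)
        · have h1 := (p k).le_opNorm
            (s.piecewise (fun _ => ((1:ℂ), (0:ℂ))) (fun _ => ((0:ℂ), (1:ℂ))))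
          refine h1.trans ?_
          apply mul_le_of_le_one_right (norm_nonneg _)
          apply prod_le_one
          · intro i _; exact norm_nonneg _
          · intro i _
            by_cases hi : i ∈ s
            · rw [piecewise_eq_of_mem _ _ _ hi]
              simp [Prod.norm_def]
            · rw [piecewise_eq_of_notMem _ _ _ hi]
              simp [Prod.norm_def]
        · refine (Finset.norm_prod_le _ _).trans ?_
          calc ∏ i : Fin k, ‖(if i ∈ s then (a:ℂ) • Z else (b:ℂ) • W : A)‖ ≤ ∏ i : Fin k, b := by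
                apply Finset.prod_le_prod
                · intro i _; exact norm_nonneg _
                · intro i _
                  split_ifs
                  · rw [norm_smul, norm_Z, mul_one, Complex.norm_real, Real.norm_eq_abs,
                      abs_of_nonneg ha]
                    exact hab
                  · rw [norm_smul, norm_W, mul_one, Complex.norm_real, Real.norm_eq_abs,
                      abs_of_nonneg hb]
            _ = b ^ k := by simp
    _ = _ := by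
        simp only [sum_const, card_univ, Fintype.card_finset, Fintype.card_fin, nsmul_eq_mul]
        push_cast
        rw [mul_pow]
        ring

theorem ev_Ht (p : FormalMultilinearSeries ℂ (ℂ × ℂ) ℂ) (a b : ℝ) (k : ℕ) {z w : ℂ}
    (hz : ‖z‖ ≤ 1) (hw : ‖w‖ ≤ 1) :
    ev z w (Ht p a b k) = p k (fun _ => ((a:ℂ) * z, (b:ℂ) * w)) := by
  have h1 : (fun _ : Fin k => ((a:ℂ) * z, (b:ℂ) * w)) =
      (fun _ : Fin k => ((a:ℂ) * z) • ((1:ℂ), (0:ℂ))) + (fun _ : Fin k => ((b:ℂ) * w) • ((0:ℂ), (1:ℂ))) := by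
    funext i
    simp
  rw [h1, (p k).map_add_univ]
  unfold Ht
  rw [map_sum]
  apply sum_congr rfl
  intro s _
  have h2 : s.piecewise (fun _ : Fin k => ((a:ℂ) * z) • ((1:ℂ), (0:ℂ)))
      (fun _ : Fin k => ((b:ℂ) * w) • ((0:ℂ), (1:ℂ))) =
      fun i => (if i ∈ s then (a:ℂ) * z else (b:ℂ) * w) •
        (s.piecewise (fun _ => ((1:ℂ), (0:ℂ))) (fun _ => ((0:ℂ), (1:ℂ))) i) := by
    funext i
    by_cases hi : i ∈ s
    · rw [piecewise_eq_of_mem _ _ _ hi, piecewise_eq_of_mem _ _ _ hi, if_pos hi]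
    · rw [piecewise_eq_of_notMem _ _ _ hi, piecewise_eq_of_notMem _ _ _ hi, if_neg hi]
  rw [h2, (p k).map_smul_univ, map_smul, smul_eq_mul, smul_eq_mul, mul_comm]
  congr 1
  have h3 := map_prod (evR hz hw) (fun i : Fin k => (if i ∈ s then (a:ℂ) • Z else (b:ℂ) • W : A)) univ
  change ev z w (∏ i : Fin k, (if i ∈ s then (a:ℂ) • Z else (b:ℂ) • W : A)) = _ at h3
  rw [h3]
  apply prod_congr rfl
  intro i _
  change ev z w (if i ∈ s then (a:ℂ) • Z else (b:ℂ) • W : A) = _
  split_ifs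
  · rw [map_smul, ev_Z hz hw, smul_eq_mul]
  · rw [map_smul, ev_W hz hw, smul_eq_mul]

/-- an analytic function gives uniformly bounded elements of the algebra -/
theorem exists_H {h : ℂ × ℂ → ℂ} (hh : AnalyticAt ℂ h 0) :
    ∃ r : ℝ, 0 < r ∧ r ≤ 1 / 2 ∧ ∃ C : ℝ, 0 ≤ C ∧ ∀ ρ : ℝ, 0 ≤ ρ → ρ ≤ r → ∃ H : A, ‖H‖ ≤ C ∧
      ∀ z w : ℂ, ‖z‖ ≤ 1 → ‖w‖ ≤ 1 → ev z w H = h ((ρ:ℂ) * z, (r:ℂ) * w) := by
  obtain ⟨p, R, hp⟩ := hh
  obtain ⟨t, ht0, htR⟩ := ENNReal.lt_iff_exists_nnreal_btwn.1 hp.r_pos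
  have ht0' : (0:ℝ) < t := by exact_mod_cast ht0
  refine ⟨min (1/2) (t / 4), by positivity, min_le_left _ _, ?_⟩
  set r : ℝ := min (1/2) (t / 4) with hr
  have hr0 : 0 < r := by rw [hr]; positivity
  have hrt : 2 * r ≤ t / 2 := by
    have := min_le_right (1/2) ((t:ℝ) / 4)
    rw [← hr] at this
    linarith
  have hsum : Summable fun k => ‖p k‖ * (2 * r) ^ k := by
    have h1 : ((2 * r).toNNReal : ℝ≥0∞) < p.radius := by
      refine lt_of_lt_of_le ?_ hp.r_le
      refine lt_trans ?_ htR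
      rw [ENNReal.coe_lt_coe, ← NNReal.coe_lt_coe, Real.coe_toNNReal _ (by positivity)]
      linarith
    have h2 := p.summable_norm_mul_pow h1
    rw [Real.coe_toNNReal _ (by positivity)] at h2
    exact h2
  refine ⟨∑' k, ‖p k‖ * (2 * r) ^ k, tsum_nonneg fun k => by positivity, ?_⟩
  intro ρ hρ0 hρr
  have hs : Summable fun k => ‖Ht p ρ r k‖ :=
    hsum.of_nonneg_of_le (fun k => norm_nonneg _) (fun k => norm_Ht p hρ0 hρr k)
  refine ⟨∑' k, Ht p ρ r k, ?_, ?_⟩
  · refine (norm_tsum_le_tsum_norm hs).trans ?_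
    exact hs.tsum_le_tsum (fun k => norm_Ht p hρ0 hρr k) hsum
  · intro z w hz hw
    have h1 := (hs.of_norm.hasSum).mapL (ev z w)
    have h2 : (fun k => (ev z w) (Ht p ρ r k)) = fun k => p k (fun _ => ((ρ:ℂ) * z, (r:ℂ) * w)) := by
      funext k
      exact ev_Ht p ρ r k hz hw
    rw [h2] at h1
    have h3 := hp.hasSum (y := ((ρ:ℂ) * z, (r:ℂ) * w)) (by
      rw [Metric.mem_eball, edist_zero_right]
      refine lt_trans ?_ htR
      rw [enorm_eq_nnnorm, ENNReal.coe_lt_coe, ← NNReal.coe_lt_coe, coe_nnnorm, Prod.norm_def]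
      apply max_lt
      · simp only [norm_mul, Complex.norm_real, Real.norm_eq_abs, abs_of_nonneg hρ0]
        have : ρ * ‖z‖ ≤ r * 1 := mul_le_mul hρr hz (norm_nonneg _) hr0.le
        linarith
      · simp only [norm_mul, Complex.norm_real, Real.norm_eq_abs, abs_of_nonneg hr0.le]
        have : r * ‖w‖ ≤ r * 1 := mul_le_mul_of_nonneg_left hw hr0.le
        linarith)
    rw [zero_add] at h3
    exact h1.unique h3

end Pool.Agent.MP_8db26a_an.Skew54
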