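import Pool.Agent.MP_8db26a_an.Solve54

set_option autoImplicit false

/-! The conjugacy to an analytic normal form. -/

namespace Pool.Agent.MP_8db26a_an.Skew54

open Filter Topology Finset
open scoped ENNReal NNReal

/-- shear of the plane -/
noncomputable def shear (a : ℂ) : (ℂ × ℂ) ≃L[ℂ] (ℂ × ℂ) :=
  ContinuousLinearEquiv.equivOfInverse
    ((ContinuousLinearMap.fst ℂ ℂ ℂ).prod
      (ContinuousLinearMap.snd ℂ ℂ ℂ + a • ContinuousLinearMap.fst ℂ ℂ ℂ))
    ((ContinuousLinearMap.fst ℂ ℂ ℂ).prod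
      (ContinuousLinearMap.snd ℂ ℂ ℂ - a • ContinuousLinearMap.fst ℂ ℂ ℂ))
    (fun p => by simp) (fun p => by simp)

/-- the local change of coordinates -/
def phiMap (G : ℂ × ℂ → ℂ) (p : ℂ × ℂ) : ℂ × ℂ := (p.1, p.2 + p.1 * G p)

theorem phiMap_analytic {G : ℂ × ℂ → ℂ} (hG : AnalyticAt ℂ G 0) : AnalyticAt ℂ (phiMap G) 0 := by
  unfold phiMap
  exact analyticAt_fst.prod (analyticAt_snd.add (analyticAt_fst.mul hG))

theorem phiMap_inverse {G : ℂ × ℂ → ℂ} (hG : AnalyticAt ℂ G 0) :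
    ∃ Ψ : ℂ × ℂ → ℂ × ℂ, AnalyticAt ℂ Ψ 0 ∧ Ψ 0 = 0 ∧ (∀ᶠ p in 𝓝 (0 : ℂ × ℂ), Ψ (phiMap G p) = p) ∧
      (∀ᶠ p in 𝓝 (0 : ℂ × ℂ), phiMap G (Ψ p) = p) := by
  have h0 : phiMap G 0 = 0 := by
    unfold phiMap
    simp
  have hA := phiMap_analytic hG
  have hd : HasFDerivAt (phiMap G) (shear (G 0) : (ℂ × ℂ) →L[ℂ] (ℂ × ℂ)) 0 := by
    have h1 : HasFDerivAt (fun p : ℂ × ℂ => p.1) (ContinuousLinearMap.fst ℂ ℂ ℂ) 0 := hasFDerivAt_fst
    have h2 : HasFDerivAt (fun p : ℂ × ℂ => p.2) (ContinuousLinearMap.snd ℂ ℂ ℂ) 0 := hasFDerivAt_snd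
    have h3 := hG.differentiableAt.hasFDerivAt
    have h4 := h1.prodMk (h2.add (h1.mul h3))
    apply h4.congr_fderiv
    ext <;> simp [shear]
  have hs : HasStrictFDerivAt (phiMap G) (shear (G 0) : (ℂ × ℂ) →L[ℂ] (ℂ × ℂ)) 0 := by
    have := hA.hasStrictFDerivAt
    rwa [hd.fderiv] at this
  set R := hs.toOpenPartialHomeomorph (phiMap G) with hR
  have hsrc : (0 : ℂ × ℂ) ∈ R.source := hs.mem_toOpenPartialHomeomorph_source
  refine ⟨hs.localInverse (phiMap G) _ _, ?_, ?_, ?_, ?_⟩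
  · have h5 := R.analyticAt_symm' (i := shear (G 0)) hsrc hA hd.fderiv
    have h6 : R (0 : ℂ × ℂ) = 0 := h0
    rw [h6] at h5
    exact h5
  · have := hs.localInverse_apply_image
    rwa [h0] at this
  · exact hs.eventually_left_inverse
  · have := hs.eventually_right_inverse
    rwa [h0] at this

theorem main {d c : ℕ} (hc : 2 ≤ c) (hd : 2 ≤ d) {h : ℂ × ℂ → ℂ} (hh : AnalyticAt ℂ h 0) :
    ∃ (G : ℂ × ℂ → ℂ) (η : Fin c → ℂ → ℂ), AnalyticAt ℂ G 0 ∧
      (∀ j, AnalyticAt ℂ (η j) 0 ∧ η j 0 = 0) ∧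
      ∀ᶠ p in 𝓝 (0 : ℂ × ℂ), phiMap G (p.1 ^ d, p.2 ^ c + p.1 * h p) =
        ((phiMap G p).1 ^ d, (phiMap G p).2 ^ c +
          ∑ j : Fin c, η j (phiMap G p).1 * (phiMap G p).2 ^ (j : ℕ)) := by
  obtain ⟨r, hr0, hr2, C, hC0, hH⟩ := exists_H hh
  obtain ⟨ε, hε, hsol⟩ := solve hc
  -- choice of the radius
  set ρ : ℝ := min (r ^ c / 4) (min (r / (2 * (C + 1))) (ε * r ^ c / (4 * (C + 1)))) with hρ
  have hρ0 : 0 < ρ := by rw [hρ]; positivity
  have hρ1 : ρ ≤ r ^ c / 4 := min_le_left _ _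
  have hρ2 : ρ ≤ r / (2 * (C + 1)) := (min_le_right _ _).trans (min_le_left _ _)
  have hρ3 : ρ ≤ ε * r ^ c / (4 * (C + 1)) := (min_le_right _ _).trans (min_le_right _ _)
  have hr1 : r ≤ 1 := by linarith
  have hrc : r ^ c ≤ r := by
    calc r ^ c ≤ r ^ 1 := pow_le_pow_of_le_one hr0.le hr1 (by omega)
      _ = r := pow_one r
  have hρr : ρ ≤ r := by linarith
  have hρle1 : ρ ≤ 1 := hρr.trans hr1
  obtain ⟨H, hHn, hHev⟩ := hH ρ hρ0.le hρr
  -- the rescaled germ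
  set ζ : A := ((ρ : ℂ) ^ (d - 1)) • Z ^ d with hζdef
  set g : A := ((r : ℂ) ^ (c - 1)) • W ^ c + ((ρ : ℂ) / r) • (Z * H) with hgdef
  have hnZ : ∀ n : ℕ, ‖Z ^ n‖ ≤ 1 := fun n => by rw [Z_pow]; exact (norm_ee _).le
  have hnW : ∀ n : ℕ, ‖W ^ n‖ ≤ 1 := fun n => by rw [W_pow]; exact (norm_ee _).le
  have hζn : ‖ζ‖ ≤ 1 := by
    rw [hζdef, norm_smul, norm_pow, Complex.norm_real, Real.norm_eq_abs, abs_of_pos hρ0]
    exact mul_le_one₀ (pow_le_one₀ hρ0.le hρle1) (norm_nonneg _) (hnZ d)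
  have hgn : ‖g‖ ≤ 1 := by
    have h1 : ‖((r : ℂ) ^ (c - 1)) • W ^ c‖ ≤ 1 / 2 := by
      rw [norm_smul, norm_pow, Complex.norm_real, Real.norm_eq_abs, abs_of_pos hr0]
      have : r ^ (c - 1) ≤ r ^ 1 := pow_le_pow_of_le_one hr0.le hr1 (by omega)
      rw [pow_one] at this
      calc r ^ (c - 1) * ‖W ^ c‖ ≤ (1 / 2) * 1 :=
            mul_le_mul (this.trans hr2) (hnW c) (norm_nonneg _) (by norm_num)
        _ = 1 / 2 := by norm_num
    have h2 : ‖((ρ : ℂ) / r) • (Z * H)‖ ≤ 1 / 2 := by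
      rw [norm_smul, norm_div, Complex.norm_real, Complex.norm_real, Real.norm_eq_abs,
        Real.norm_eq_abs, abs_of_pos hρ0, abs_of_pos hr0]
      have h3 : ‖Z * H‖ ≤ C + 1 := by
        refine (norm_mul_le _ _).trans ?_
        rw [norm_Z, one_mul]
        linarith
      have h4 : ρ / r ≤ 1 / (2 * (C + 1)) := by
        rw [div_le_div_iff₀ hr0 (by positivity)]
        rw [le_div_iff₀ (by positivity)] at hρ2
        linarith
      calc ρ / r * ‖Z * H‖ ≤ 1 / (2 * (C + 1)) * (C + 1) :=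
            mul_le_mul h4 h3 (norm_nonneg _) (by positivity)
        _ = 1 / 2 := by field_simp
    calc ‖g‖ ≤ _ := norm_add_le _ _
      _ ≤ 1 / 2 + 1 / 2 := add_le_add h1 h2
      _ = 1 := by norm_num
  -- the linear perturbation
  set κr : ℝ := (r ^ (c - 1))⁻¹ * ρ ^ (d - 1) with hκr
  have hκ0 : 0 ≤ κr := by rw [hκr]; positivity
  have hκ4 : κr ≤ 1 / 4 := by
    have h1 : ρ ^ (d - 1) ≤ ρ := by
      calc ρ ^ (d - 1) ≤ ρ ^ 1 := pow_le_pow_of_le_one hρ0.le hρle1 (by omega)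
        _ = ρ := pow_one ρ
    have h2 : ρ ^ (d - 1) ≤ r ^ c / 4 := h1.trans hρ1
    have h3 : r ^ c = r ^ (c - 1) * r := by
      rw [← pow_succ]; congr 1; omega
    rw [hκr, inv_mul_le_iff₀ (by positivity)]
    refine h2.trans ?_
    rw [h3]
    have : 0 < r ^ (c - 1) := by positivity
    nlinarith
  set S : A →L[ℂ] A := (κr : ℂ) • (mulL (Z ^ (d - 1))).comp ((cmp ζ g).comp (V c)) with hS
  have hSn : ‖S‖ ≤ 1 / 4 := by
    apply ContinuousLinearMap.opNorm_le_bound _ (by norm_num)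
    intro x
    rw [hS, smul_apply, norm_smul, Complex.norm_real, Real.norm_eq_abs, abs_of_nonneg hκ0]
    apply mul_le_mul hκ4 _ (norm_nonneg _) (by norm_num)
    rw [ContinuousLinearMap.comp_apply, ContinuousLinearMap.comp_apply]
    refine (norm_mulL _ _).trans ?_
    have h1 : ‖cmp ζ g (V c x)‖ ≤ ‖x‖ := by
      refine (norm_lift_le _ _).trans ?_
      refine ((V c).le_opNorm x).trans ?_
      exact mul_le_of_le_one_left (norm_nonneg _) (norm_V hc)
    calc ‖Z ^ (d - 1)‖ * ‖cmp ζ g (V c x)‖ ≤ 1 * ‖x‖ :=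
          mul_le_mul (hnZ _) h1 (norm_nonneg _) zero_le_one
      _ = ‖x‖ := one_mul _
  set b : A := ((ρ : ℂ) / r ^ c) • H with hb
  have hbn : ‖b‖ ≤ ε / 4 := by
    rw [hb, norm_smul, norm_div, norm_pow, Complex.norm_real, Complex.norm_real, Real.norm_eq_abs,
      Real.norm_eq_abs, abs_of_pos hρ0, abs_of_pos hr0]
    have h4 : ρ / r ^ c ≤ ε / (4 * (C + 1)) := by
      rw [div_le_div_iff₀ (by positivity) (by positivity)]
      rw [le_div_iff₀ (by positivity)] at hρ3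
      linarith
    calc ρ / r ^ c * ‖H‖ ≤ ε / (4 * (C + 1)) * (C + 1) :=
          mul_le_mul h4 (by linarith) (norm_nonneg _) (by positivity)
      _ = ε / 4 := by field_simp
  obtain ⟨y, hy⟩ := hsol S b hSn hbn
  have hy2 : Pop c y - (κr : ℂ) • (Z ^ (d - 1) * cmp ζ g (V c y)) = b := by
    rw [← hy]
    rfl
  have hrC : (r : ℂ) ≠ 0 := by exact_mod_cast hr0.ne'
  have hρC : (ρ : ℂ) ≠ 0 := by exact_mod_cast hρ0.ne'
  -- the functions
  set G : ℂ × ℂ → ℂ := fun p => ((r : ℂ) / ρ) * ev (p.1 / ρ) (p.2 / r) (V c y) with hG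
  set η : Fin c → ℂ → ℂ := fun j x => if (j : ℕ) < c - 1 then
    (r : ℂ) ^ (c - (j : ℕ)) * (x / ρ) * ev (x / ρ) 0 (Kc j y) else 0 with hη
  refine ⟨G, η, ?_, ?_, ?_⟩
  · have h1 : AnalyticAt ℂ (fun p : ℂ × ℂ => (p.1 / (ρ : ℂ), p.2 / (r : ℂ))) 0 :=
      (analyticAt_fst.div_const).prod (analyticAt_snd.div_const)
    have h2 : AnalyticAt ℂ (fun p : ℂ × ℂ => ev p.1 p.2 (V c y))
        ((fun p : ℂ × ℂ => (p.1 / (ρ : ℂ), p.2 / (r : ℂ))) 0) := by
      have e0 : (fun p : ℂ × ℂ => (p.1 / (ρ : ℂ), p.2 / (r : ℂ))) 0 = 0 := by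
        ext <;> simp
      rw [e0]
      exact ev_analytic (V c y)
    have h3 : AnalyticAt ℂ ((fun p : ℂ × ℂ => ev p.1 p.2 (V c y)) ∘
        (fun p : ℂ × ℂ => (p.1 / (ρ : ℂ), p.2 / (r : ℂ)))) 0 := AnalyticAt.comp (x := 0) h2 h1
    exact analyticAt_const.mul h3
  · intro j
    constructor
    · by_cases hj : (j : ℕ) < c - 1
      · have h1 : AnalyticAt ℂ (fun x : ℂ => (x / (ρ : ℂ), (0 : ℂ))) 0 :=
          (analyticAt_id.div_const).prod analyticAt_const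
        have h2 : AnalyticAt ℂ (fun p : ℂ × ℂ => ev p.1 p.2 (Kc j y))
            ((fun x : ℂ => (x / (ρ : ℂ), (0 : ℂ))) 0) := by
          have e0 : (fun x : ℂ => (x / (ρ : ℂ), (0 : ℂ))) 0 = 0 := by
            ext <;> simp
          rw [e0]
          exact ev_analytic (Kc j y)
        have h4 : AnalyticAt ℂ ((fun p : ℂ × ℂ => ev p.1 p.2 (Kc j y)) ∘
            (fun x : ℂ => (x / (ρ : ℂ), (0 : ℂ)))) 0 := AnalyticAt.comp (x := 0) h2 h1
        have h3 : η j = fun x => (r : ℂ) ^ (c - (j : ℕ)) * (x / ρ) * ev (x / ρ) 0 (Kc j y) := by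
          funext x
          rw [hη]
          simp only
          rw [if_pos hj]
        rw [h3]
        exact (analyticAt_const.mul analyticAt_id.div_const).mul h4
      · have h3 : η j = fun _ => 0 := by
          funext x
          rw [hη]
          simp only
          rw [if_neg hj]
        rw [h3]
        exact analyticAt_const
    · rw [hη]
      simp
  · have hev : ∀ᶠ p in 𝓝 (0 : ℂ × ℂ), ‖p.1‖ < ρ ∧ ‖p.2‖ < r := by
      have h1 : ∀ᶠ p in 𝓝 (0 : ℂ × ℂ), ‖p.1‖ < ρ := by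
        have : Tendsto (fun p : ℂ × ℂ => ‖p.1‖) (𝓝 0) (𝓝 0) := by
          have := (continuous_fst.norm).tendsto (0 : ℂ × ℂ)
          simpa using this
        exact this.eventually_lt_const hρ0
      have h2 : ∀ᶠ p in 𝓝 (0 : ℂ × ℂ), ‖p.2‖ < r := by
        have : Tendsto (fun p : ℂ × ℂ => ‖p.2‖) (𝓝 0) (𝓝 0) := by
          have := (continuous_snd.norm).tendsto (0 : ℂ × ℂ)
          simpa using this
        exact this.eventually_lt_const hr0
      exact h1.and h2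
    filter_upwards [hev] with p hp
    set z : ℂ := p.1 / ρ with hz
    set w : ℂ := p.2 / r with hw
    have hp1 : p.1 = ρ * z := by rw [hz]; field_simp
    have hp2 : p.2 = r * w := by rw [hw]; field_simp
    have hz1 : ‖z‖ ≤ 1 := by
      rw [hz, norm_div, Complex.norm_real, Real.norm_eq_abs, abs_of_pos hρ0, div_le_one hρ0]
      exact hp.1.le
    have hw1 : ‖w‖ ≤ 1 := by
      rw [hw, norm_div, Complex.norm_real, Real.norm_eq_abs, abs_of_pos hr0, div_le_one hr0]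
      exact hp.2.le
    have hfe := func_eq (by omega : 1 ≤ d) hζn hgn hy2 hz1 hw1
    set v := ev z w (V c y) with hv
    have hpH : ev z w H = h p := by
      rw [hHev z w hz1 hw1]
      congr 1
      rw [← hp1, ← hp2]
    have hζev : ev z w ζ = p.1 ^ d / ρ := by
      rw [hζdef, map_smul, ev_pow hz1 hw1, ev_Z hz1 hw1, smul_eq_mul, hp1, mul_pow]
      have : (ρ : ℂ) ^ d = ρ ^ (d - 1) * ρ := by
        rw [← pow_succ]; congr 1; omega
      rw [this]
      field_simp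
    have hgev : ev z w g = (p.2 ^ c + p.1 * h p) / r := by
      rw [hgdef, map_add, map_smul, map_smul, ev_mul hz1 hw1, ev_pow hz1 hw1, ev_Z hz1 hw1,
        ev_W hz1 hw1, smul_eq_mul, smul_eq_mul, hpH, hp2, mul_pow, hp1]
      have : (r : ℂ) ^ c = r ^ (c - 1) * r := by
        rw [← pow_succ]; congr 1; omega
      rw [this]
      field_simp
    have hGp : G p = (r : ℂ) / ρ * v := rfl
    have hGfp : G (p.1 ^ d, p.2 ^ c + p.1 * h p) =
        (r : ℂ) / ρ * ev (ev z w ζ) (ev z w g) (V c y) := by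
      rw [hζev, hgev]
    set v' := ev (ev z w ζ) (ev z w g) (V c y) with hv'
    have hφ : p.2 + p.1 * G p = r * (w + z * v) := by
      rw [hGp, hp1, hp2]
      field_simp
    unfold phiMap
    simp only
    rw [Prod.mk.injEq]
    refine ⟨rfl, ?_⟩
    rw [hφ, hGfp]
    have hsum : ∑ j : Fin c, η j p.1 * (r * (w + z * v)) ^ (j : ℕ) =
        (r : ℂ) ^ c * ∑ j ∈ range (c - 1), z * ev z 0 (Kc j y) * (w + z * v) ^ j := by
      have h1 : ∑ j : Fin c, η j p.1 * (r * (w + z * v)) ^ (j : ℕ) =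
          ∑ j ∈ range c, (if j < c - 1 then (r : ℂ) ^ (c - j) * z * ev z 0 (Kc j y) else 0) *
            (r * (w + z * v)) ^ j := by
        rw [← Fin.sum_univ_eq_sum_range (fun j =>
          (if j < c - 1 then (r : ℂ) ^ (c - j) * z * ev z 0 (Kc j y) else 0) *
            (r * (w + z * v)) ^ j) c]
      rw [h1]
      obtain ⟨c', rfl⟩ : ∃ c', c = c' + 1 := ⟨c - 1, by omega⟩
      rw [Nat.add_sub_cancel, sum_range_succ, if_neg (lt_irrefl _), zero_mul, add_zero, mul_sum]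
      apply sum_congr rfl
      intro j hj
      rw [mem_range] at hj
      rw [if_pos hj, mul_pow]
      have : (r : ℂ) ^ (c' + 1) = r ^ (c' + 1 - j) * r ^ j := by
        rw [← pow_add]; congr 1; omega
      rw [this]
      ring
    rw [hsum, mul_pow, ← mul_add, hfe]
    have hbev : ev z w b = (ρ : ℂ) / r ^ c * h p := by
      rw [hb, map_smul, smul_eq_mul, hpH]
    rw [hbev]
    have hκC : (κr : ℂ) = ((r : ℂ) ^ (c - 1))⁻¹ * ρ ^ (d - 1) := by
      rw [hκr]; push_cast; ring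
    rw [hκC, hp1, hp2]
    have e1 : (ρ : ℂ) ^ d = ρ ^ (d - 1) * ρ := by
      rw [← pow_succ]; congr 1; omega
    have e2 : (r : ℂ) ^ c = r ^ (c - 1) * r := by
      rw [← pow_succ]; congr 1; omega
    rw [mul_pow, mul_pow, e1, e2]
    field_simp

end Pool.Agent.MP_8db26a_an.Skew54
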