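import Pool.Agent.MP_8db26a_an.L1Fun54

set_option autoImplicit false

/-! Solving the conjugacy equation in the algebra. -/

namespace Pool.Agent.MP_8db26a_an.Skew54

open Filter Topology Finset
open scoped ENNReal NNReal

/-- the unknown displacement as a function of the unknown -/
noncomputable def V (c : ℕ) : A →L[ℂ] A := ((c:ℂ)⁻¹) • Dv (c - 1)

theorem norm_V {c : ℕ} (hc : 2 ≤ c) : ‖V c‖ ≤ 1 := by
  unfold V
  rw [norm_smul, norm_inv, Complex.norm_natCast]
  have h1 : ((c:ℝ))⁻¹ ≤ 1 := by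
    apply inv_le_one_of_one_le₀
    exact_mod_cast (by omega : 1 ≤ c)
  calc _ ≤ 1 * 1 := mul_le_mul h1 (norm_lift _) (norm_nonneg _) zero_le_one
    _ = 1 := one_mul 1

/-- first nonlinear factor -/
noncomputable def g1 (c : ℕ) (y : A) : A :=
  ∑ i ∈ range c, (W + Z * V c y) ^ i * W ^ (c - 1 - i)

/-- the nonlinear operator -/
noncomputable def Pop (c : ℕ) (y : A) : A :=
  V c y * g1 c y + ∑ j ∈ range (c - 1), (W + Z * V c y) ^ j * Kc j y

theorem contDiff_base (c : ℕ) : ContDiff ℂ 1 (fun y : A => W + Z * V c y) :=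
  contDiff_const.add (contDiff_const.mul (V c).contDiff)

theorem contDiff_g1 (c : ℕ) : ContDiff ℂ 1 (g1 c) := by
  unfold g1
  apply ContDiff.sum
  intro i _
  exact ((contDiff_base c).pow i).mul contDiff_const

theorem Pop_zero (c : ℕ) : Pop c 0 = 0 := by
  unfold Pop
  simp

theorem Pop_strict {c : ℕ} (hc : 2 ≤ c) :
    HasStrictFDerivAt (Pop c) (ContinuousLinearMap.id ℂ A) 0 := by
  have hV : HasStrictFDerivAt (fun y => V c y) (V c) 0 := (V c).hasStrictFDerivAt
  have hg : HasStrictFDerivAt (g1 c) (fderiv ℂ (g1 c) 0) 0 :=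
    ((contDiff_g1 c).contDiffAt (x := 0)).hasStrictFDerivAt one_ne_zero
  have hb : ∀ j, HasStrictFDerivAt (fun y : A => (W + Z * V c y) ^ j)
      (fderiv ℂ (fun y : A => (W + Z * V c y) ^ j) 0) 0 := fun j =>
    (((contDiff_base c).pow j).contDiffAt (x := 0)).hasStrictFDerivAt one_ne_zero
  have hK : ∀ j, HasStrictFDerivAt (fun y : A => Kc j y) (Kc j) 0 := fun j =>
    (Kc j).hasStrictFDerivAt
  have h1 := hV.mul hg
  have h2 := HasStrictFDerivAt.fun_sum (u := range (c - 1)) (fun j _ => (hb j).mul (hK j))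
  have h3 := h1.add h2
  have h4 : HasStrictFDerivAt (Pop c) _ 0 := h3
  apply h4.congr_fderiv
  ext x
  have hc0 : (c:ℂ) ≠ 0 := by
    have : c ≠ 0 := by omega
    exact_mod_cast this
  have hg0 : g1 c 0 = (c:ℂ) • W ^ (c - 1) := by
    unfold g1
    have : ∀ i ∈ range c, (W + Z * V c 0) ^ i * W ^ (c - 1 - i) = W ^ (c - 1) := by
      intro i hi
      rw [mem_range] at hi
      rw [map_zero, mul_zero, add_zero, ← pow_add]
      congr 1
      omega
    rw [sum_congr rfl this, sum_const, card_range]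
    rw [← Nat.cast_smul_eq_nsmul ℂ]
  simp only [add_apply, _root_.sum_apply, smul_apply, map_zero, zero_smul, zero_add, add_zero,
    smul_eq_mul, mul_zero, ContinuousLinearMap.id_apply, hg0]
  have h5 := division (c - 1) x
  rw [V, smul_apply, smul_mul_smul_comm, mul_inv_cancel₀ hc0, one_smul]
  convert h5 using 1

/-- solvability of the perturbed equation -/
theorem solve {c : ℕ} (hc : 2 ≤ c) : ∃ ε : ℝ, 0 < ε ∧ ∀ (S : A →L[ℂ] A) (b : A), ‖S‖ ≤ 1 / 4 →
    ‖b‖ ≤ ε / 4 → ∃ y, Pop c y - S y = b := by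
  obtain ⟨s, hs, hap⟩ := (Pop_strict hc).approximates_deriv_on_nhds (c := 1 / 4)
    (Or.inr (by norm_num))
  obtain ⟨ε, hε, hεs⟩ := Metric.nhds_basis_closedBall.mem_iff.1 hs
  refine ⟨ε, hε, ?_⟩
  intro S b hS hb
  let T : A → A := fun y => y - (Pop c y - S y - b)
  have hlip : ∀ x ∈ Metric.closedBall (0:A) ε, ∀ y ∈ Metric.closedBall (0:A) ε,
      ‖T x - T y‖ ≤ 1 / 2 * ‖x - y‖ := by
    intro x hx y hy
    have h1 := hap x (hεs hx) y (hεs hy)
    simp only [ContinuousLinearMap.id_apply] at h1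
    have h2 : T x - T y = -(Pop c x - Pop c y - (x - y)) + S (x - y) := by
      simp only [T, map_sub]
      abel
    rw [h2]
    refine (norm_add_le _ _).trans ?_
    rw [norm_neg]
    have h3 : ‖S (x - y)‖ ≤ 1 / 4 * ‖x - y‖ :=
      (S.le_opNorm _).trans (mul_le_mul_of_nonneg_right hS (norm_nonneg _))
    have h4 : ((1 / 4 : ℝ≥0) : ℝ) = 1 / 4 := by norm_num
    rw [h4] at h1
    linarith
  have hmaps : Set.MapsTo T (Metric.closedBall 0 ε) (Metric.closedBall 0 ε) := by
    intro x hx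
    have h0 : (0:A) ∈ Metric.closedBall (0:A) ε := Metric.mem_closedBall_self hε.le
    have h1 := hlip x hx 0 h0
    have h2 : T 0 = b := by
      simp only [T, Pop_zero, map_zero]
      abel
    rw [sub_zero, h2] at h1
    rw [mem_closedBall_zero_iff] at hx ⊢
    have h3 : ‖T x‖ ≤ ‖T x - b‖ + ‖b‖ := by
      have := norm_add_le (T x - b) b
      rwa [sub_add_cancel] at this
    linarith
  have hcontr : ContractingWith (1 / 2) (hmaps.restrict T _ _) := by
    refine ⟨by norm_num, ?_⟩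
    apply LipschitzWith.of_dist_le_mul
    intro x y
    have h1 := hlip x x.2 y y.2
    have h4 : ((1 / 2 : ℝ≥0) : ℝ) = 1 / 2 := by norm_num
    rw [h4, Subtype.dist_eq, Subtype.dist_eq, dist_eq_norm, dist_eq_norm]
    exact h1
  obtain ⟨y, -, hy, -⟩ := hcontr.exists_fixedPoint' Metric.isClosed_closedBall.isComplete hmaps
    (Metric.mem_closedBall_self hε.le) (edist_ne_top _ _)
  refine ⟨y, ?_⟩
  have h5 : T y = y := hy
  have h6 : Pop c y - S y - b = 0 := by
    have : y - (Pop c y - S y - b) = y := h5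
    exact sub_eq_self.1 this
  exact sub_eq_zero.1 h6

/-- the functional equation obtained from the solution -/
theorem func_eq {c d : ℕ} (hd : 1 ≤ d) {ζ g H y : A} {κ : ℂ} (hζ : ‖ζ‖ ≤ 1)
    (hg : ‖g‖ ≤ 1)
    (hy : Pop c y - κ • (Z ^ (d - 1) * cmp ζ g (V c y)) = H) {z w : ℂ} (hz : ‖z‖ ≤ 1)
    (hw : ‖w‖ ≤ 1) :
    (w + z * ev z w (V c y)) ^ c + ∑ j ∈ range (c - 1),
      z * ev z 0 (Kc j y) * (w + z * ev z w (V c y)) ^ j =
    w ^ c + z * ev z w H + κ * z ^ d * ev (ev z w ζ) (ev z w g) (V c y) := by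
  have h1 := congrArg (ev z w) hy
  rw [map_sub, map_smul, ev_mul hz hw, ev_pow hz hw, ev_Z hz hw, ev_cmp hz hw hζ hg] at h1
  unfold Pop g1 at h1
  rw [map_add, ev_mul hz hw, map_sum, map_sum] at h1
  have h2 : ∀ i, ev z w ((W + Z * V c y) ^ i * W ^ (c - 1 - i)) =
      (w + z * ev z w (V c y)) ^ i * w ^ (c - 1 - i) := by
    intro i
    rw [ev_mul hz hw, ev_pow hz hw, ev_pow hz hw, map_add, ev_mul hz hw, ev_Z hz hw, ev_W hz hw]
  have h3 : ∀ j, ev z w ((W + Z * V c y) ^ j * Kc j y) =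
      (w + z * ev z w (V c y)) ^ j * ev z 0 (Kc j y) := by
    intro i
    rw [ev_mul hz hw, ev_pow hz hw, map_add, ev_mul hz hw, ev_Z hz hw, ev_W hz hw, ev_Kc hz hw]
  simp only [h2, h3, smul_eq_mul] at h1
  set v := ev z w (V c y) with hv
  have h4 := Commute.geom_sum₂_mul (Commute.all (w + z * v) w) c
  have h5 : ∑ j ∈ range (c - 1), z * ev z 0 (Kc j y) * (w + z * v) ^ j =
      z * ∑ j ∈ range (c - 1), (w + z * v) ^ j * ev z 0 (Kc j y) := by
    rw [mul_sum]
    apply sum_congr rfl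
    intro j _
    ring
  have h6 : z ^ d = z * z ^ (d - 1) := by
    rw [← pow_succ']
    congr 1
    omega
  rw [h5, h6]
  linear_combination (-1 : ℂ) * h4 + z * h1

end Pool.Agent.MP_8db26a_an.Skew54
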